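import Mathlib

set_option autoImplicit false

/-! Definitions for MP_89350a_an: the space of closed linear subspaces, the sets `E^+(U)` and
admissible topologies. -/

namespace Pool.Agent.Q307.SBC

/-- `SB 𝕜 E` is the set of all closed linear subspaces of `E`. -/
abbrev SB (𝕜 E : Type*) [Semiring 𝕜] [AddCommMonoid E] [Module 𝕜 E] [TopologicalSpace E] :
    Type _ :=
  {X : Submodule 𝕜 E // IsClosed (X : Set E)}

/-- `EPlus U` is the set of closed subspaces `X` which meet `U`. -/
def EPlus {𝕜 E : Type*} [Semiring 𝕜] [AddCommMonoid E] [Module 𝕜 E] [TopologicalSpace E]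
    (U : Set E) : Set (SB 𝕜 E) :=
  {X | ∃ x ∈ X.1, x ∈ U}

/-- An admissible topology on `SB 𝕜 E`: a Polish topology which contains all sets `EPlus U` with
`U` open, and which has a subbasis each of whose members is a countable union of sets
`EPlus U \ EPlus V` with `U` and `V` open. -/
structure Admissible {𝕜 E : Type*} [Semiring 𝕜] [AddCommMonoid E] [Module 𝕜 E]
    [TopologicalSpace E] (τ : TopologicalSpace (SB 𝕜 E)) : Prop where
  polish : @PolishSpace (SB 𝕜 E) τ
  hit_open : ∀ U : Set E, IsOpen U → @IsOpen (SB 𝕜 E) τ (EPlus U)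
  subbasis : ∃ 𝒮 : Set (Set (SB 𝕜 E)), τ = TopologicalSpace.generateFrom 𝒮 ∧
    ∀ S ∈ 𝒮, ∃ U V : ℕ → Set E, (∀ i, IsOpen (U i)) ∧ (∀ i, IsOpen (V i)) ∧
      S = ⋃ i, (EPlus (U i) \ EPlus (V i))

end Pool.Agent.Q307.SBC
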