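import Pool.Agent.Q307.SBC.Main

set_option autoImplicit false

/-! The main theorem for separable Banach spaces. -/

open Filter Topology Set

namespace Pool.Agent.Q307.SBC

variable {𝕜 E : Type*} [RCLike 𝕜] [NormedAddCommGroup E] [NormedSpace 𝕜 E]

/-- a family with a base and prescribed further members -/
theorem exists_fam [SecondCountableTopology E] (U : ℕ → Set E) (hU : ∀ n, IsOpen (U n)) :
    ∃ F : Fam E, ∀ j, ∃ n, F.W n = U j := by
  let 𝒰 : Set (Set E) := TopologicalSpace.countableBasis E ∪ Set.range U
  have hc : 𝒰.Countable :=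
    (TopologicalSpace.countable_countableBasis E).union (Set.countable_range U)
  have hne : 𝒰.Nonempty := ⟨U 0, Or.inr ⟨0, rfl⟩⟩
  obtain ⟨W, hW⟩ := hc.exists_eq_range hne
  have hB := TopologicalSpace.isBasis_countableBasis E
  refine ⟨⟨W, ?_, ?_⟩, ?_⟩
  · intro n
    have h1 : W n ∈ 𝒰 := by rw [hW]; exact ⟨n, rfl⟩
    rcases h1 with h1 | ⟨j, hj⟩
    · exact hB.isOpen h1
    · rw [← hj]; exact hU j
  · intro O x hO hx
    obtain ⟨v, hv, hxv, hvO⟩ := hB.exists_subset_of_mem_open hx hO
    have h1 : v ∈ Set.range W := by rw [← hW]; exact Or.inl hv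
    obtain ⟨n, rfl⟩ := h1
    exact ⟨n, hxv, hvO⟩
  · intro j
    have h1 : U j ∈ Set.range W := by rw [← hW]; exact Or.inr ⟨j, rfl⟩
    exact h1

/-- the sets `D i` are clopen -/
theorem D_clopen (F : Fam E) (φ : ℕ → (E →L[𝕜] 𝕜)) (hφ : ∀ x : E, (∀ i, φ i x = 0) → x = 0)
    (hF : ∀ q, ∃ n, F.W n = V φ q) (i : ℕ) : @IsClopen (SB 𝕜 E) (F.top 𝕜) (D 𝕜 i) := by
  let := F.top 𝕜
  constructor
  · rcases i with _ | i
    · have h1 : (D 𝕜 0 : Set (SB 𝕜 E)) = Set.univ := by
        ext X
        simp only [mem_univ, iff_true]
        exact ⟨Fin.elim0, fun j => j.elim0, linearIndependent_empty_type⟩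
      rw [h1]
      exact isClosed_univ
    · constructor
      rw [isOpen_iff_mem_nhds]
      intro X hX
      obtain ⟨q, hq, hXq⟩ := small_V φ hφ X i hX
      obtain ⟨n, hn⟩ := hF q
      have h1 : X ∈ (EPlus (F.W n) : Set (SB 𝕜 E))ᶜ := by rw [hn]; exact hXq
      filter_upwards [(F.clopen (𝕜 := 𝕜) n).compl.isOpen.mem_nhds h1] with Y hY
      rw [hn] at hY
      exact V_small φ q Y hY i hq
  · rw [isOpen_iff_mem_nhds]
    rintro X ⟨v, hv, hli⟩
    have hO : IsOpen {f : Fin i → E | LinearIndependent 𝕜 f} := isOpen_setOf_linearIndependent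
    have h1 := hO.mem_nhds (show v ∈ {f : Fin i → E | LinearIndependent 𝕜 f} from hli)
    rw [nhds_pi, Filter.mem_pi'] at h1
    obtain ⟨I, t, ht, hsub⟩ := h1
    choose o ho hoO hov using fun j => mem_nhds_iff.1 (ht j)
    have h2 : ∀ᶠ Y in 𝓝 X, ∀ j : Fin i, Y ∈ EPlus (𝕜 := 𝕜) (o j) := by
      rw [Filter.eventually_all]
      intro j
      exact (F.hit (o j) (hoO j)).mem_nhds ⟨v j, hv j, hov j⟩
    filter_upwards [h2] with Y hY
    choose y hy hyo using hY
    refine ⟨y, hy, ?_⟩
    exact hsub fun j _ => ho j (hyo j)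

/-- the topology has a base of clopen sets -/
theorem clopen_base (F : Fam E) (X : SB 𝕜 E) (O : Set (SB 𝕜 E)) (hO : @IsOpen _ (F.top 𝕜) O)
    (hX : X ∈ O) : ∃ C : Set (SB 𝕜 E), @IsClopen _ (F.top 𝕜) C ∧ X ∈ C ∧ C ⊆ O := by
  letI := F.top 𝕜
  have hB := TopologicalSpace.isTopologicalBasis_of_subbasis (s := F.gen 𝕜) (t := F.top 𝕜) rfl
  obtain ⟨C, ⟨f, ⟨hf, hfs⟩, rfl⟩, hXC, hCO⟩ := hB.exists_subset_of_mem_open hX hO
  refine ⟨⋂₀ f, ?_, hXC, hCO⟩
  have hcl : ∀ S ∈ f, IsClopen S := by
    intro S hS
    obtain ⟨n, hn⟩ := hfs hS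
    rcases hn with rfl | rfl
    · exact F.clopen n
    · exact (F.clopen n).compl
  exact ⟨isClosed_sInter fun S hS => (hcl S hS).isClosed,
    hf.isOpen_sInter fun S hS => (hcl S hS).isOpen⟩

variable [CompleteSpace E] [SecondCountableTopology E]

/-- main theorem -/
theorem main : ∃ τ : TopologicalSpace (SB 𝕜 E), Admissible τ ∧ ∃ h : ℕ → SB 𝕜 E → E,
    (∀ i, @Continuous _ _ τ _ (h i)) ∧
    (∀ X : SB 𝕜 E, (X.1 : Set E) = closure (Set.range fun i => h i X)) ∧
    (∀ X : SB 𝕜 E, ¬ FiniteDimensional 𝕜 X.1 → LinearIndependent 𝕜 (fun i => h i X)) := by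
  classical
  obtain ⟨φ, hφ⟩ := exists_sep 𝕜 E
  obtain ⟨e, he⟩ := exists_surjective_nat (Finset ℕ × ℕ)
  obtain ⟨F, hF⟩ := exists_fam (fun j => V φ (e j)) (fun j => V_open φ (e j))
  have hF' : ∀ q, ∃ n, F.W n = V φ q := by
    intro q
    obtain ⟨j, rfl⟩ := he q
    exact hF j
  letI τ : TopologicalSpace (SB 𝕜 E) := F.top 𝕜
  haveI hpol : PolishSpace (SB 𝕜 E) := F.polish
  refine ⟨F.top 𝕜, ⟨F.polish, fun U hU => F.hit U hU, F.gen 𝕜, rfl, ?_⟩, ?_⟩
  · rintro S ⟨n, hn⟩
    have hempty : (EPlus (∅ : Set E) : Set (SB 𝕜 E)) = ∅ := by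
      ext X
      simp [EPlus]
    have huniv : (EPlus (Set.univ : Set E) : Set (SB 𝕜 E)) = Set.univ := by
      ext X
      simp only [EPlus, mem_setOf_eq, mem_univ, and_true, iff_true]
      exact ⟨0, X.1.zero_mem⟩
    rcases hn with rfl | rfl
    · refine ⟨fun _ => F.W n, fun _ => ∅, fun _ => F.op n, fun _ => isOpen_empty, ?_⟩
      simp only [hempty, iUnion_const, diff_empty]
    · refine ⟨fun _ => Set.univ, fun _ => F.W n, fun _ => isOpen_univ, fun _ => F.op n, ?_⟩
      simp only [huniv, iUnion_const, ← compl_eq_univ_diff]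
  · obtain ⟨g, hgc, hgX, hgd⟩ := F.select (𝕜 := 𝕜)
    have hDc : ∀ i, IsClopen (D 𝕜 i : Set (SB 𝕜 E)) := D_clopen F φ hφ hF'
    let Good : ℕ → (ℕ → SB 𝕜 E → E) → (SB 𝕜 E → E) → Prop := fun i p a =>
      Continuous a ∧ (∀ X, a X ∈ X.1 ∧ dist (a X) (g (Nat.unpair i).1 X) ≤ 1 / ((i : ℝ) + 1)) ∧
      ∀ X ∈ D 𝕜 (i + 1), LinearIndependent 𝕜 (fun l : Fin (i + 1) => Function.update p i a l X)
    obtain ⟨h, hh⟩ := exists_seq_rec Good (by
      rintro i p q a hpq ⟨h1, h2, h3⟩
      refine ⟨h1, h2, fun X hX => ?_⟩
      have h4 := h3 X hX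
      convert h4 using 1
      funext l
      by_cases hl : (l : ℕ) = i
      · rw [hl, Function.update_self, Function.update_self]
      · rw [Function.update_of_ne hl, Function.update_of_ne hl, hpq l (by omega)]) (by
      intro i p hp
      have hpc : ∀ l < i, Continuous (p l) := fun l hl => (hp l hl).1
      have hpi : ∀ X ∈ D 𝕜 (i + 1), LinearIndependent 𝕜 (fun l : Fin i => p l X) := by
        intro X hX
        rcases i with _ | i
        · exact linearIndependent_empty_type
        · have h1 := (hp i (by omega)).2.2 X ?_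
          · rw [Function.update_eq_self] at h1
            exact h1
          · obtain ⟨v, hv, hli⟩ := hX
            exact ⟨fun j => v j.castSucc, fun j => hv _, hli.comp _ (Fin.castSucc_injective _)⟩
      set j := (Nat.unpair i).1 with hj
      let G : ℕ → Set (SB 𝕜 E) := fun m =>
        {X | X ∈ D 𝕜 (i + 1) ∧ dist (g m X) (g j X) < 1 / ((i : ℝ) + 1) ∧
          LinearIndependent 𝕜 (Fin.snoc (α := fun _ => E) (fun l : Fin i => p l X) (g m X))} ∪
        {X | X ∉ D 𝕜 (i + 1) ∧ m = j}
      have hG : ∀ m, IsOpen (G m) := by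
        intro m
        refine IsOpen.union ?_ ?_
        · refine (hDc (i + 1)).isOpen.inter (IsOpen.inter ?_ ?_)
          · exact isOpen_lt ((hgc m).dist (hgc j)) continuous_const
          · have hO : IsOpen {f : Fin (i + 1) → E | LinearIndependent 𝕜 f} :=
              isOpen_setOf_linearIndependent
            have hcont : Continuous fun X : SB 𝕜 E =>
                (Fin.snoc (α := fun _ => E) (fun l : Fin i => p l X) (g m X) :
                  Fin (i + 1) → E) := by
              refine continuous_pi fun l => ?_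
              refine Fin.lastCases ?_ (fun l => ?_) l
              · simp only [Fin.snoc_last]
                exact hgc m
              · simp only [Fin.snoc_castSucc]
                exact hpc l l.2
            exact hO.preimage hcont
        · by_cases hm : m = j
          · simp only [hm, and_true]
            exact (hDc (i + 1)).compl.isOpen
          · simp only [hm, and_false]
            exact isOpen_empty
      have hcov : ∀ X, ∃ m, X ∈ G m := by
        intro X
        by_cases hX : X ∈ D 𝕜 (i + 1)
        · have hli := hpi X hX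
          set S : Submodule 𝕜 E := Submodule.span 𝕜 (Set.range fun l : Fin i => p l X) with hS
          -- a vector of X outside S
          have hz : ∃ z ∈ X.1, z ∉ S := by
            by_contra hcon
            push Not at hcon
            obtain ⟨v, hv, hvli⟩ := hX
            have h1 : LinearIndependent 𝕜 (fun l => (⟨v l, hcon _ (hv l)⟩ : S)) :=
              LinearIndependent.of_comp S.subtype hvli
            haveI : FiniteDimensional 𝕜 S := FiniteDimensional.span_of_finite 𝕜
              (Set.finite_range _)
            have h2 := h1.fintype_card_le_finrank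
            have h3 : Module.finrank 𝕜 S ≤ Fintype.card (Fin i) := finrank_range_le_card _
            simp only [Fintype.card_fin] at h2 h3
            omega
          obtain ⟨z, hz, hzS⟩ := hz
          have hy : ∃ y ∈ X.1, dist y (g j X) < 1 / ((i : ℝ) + 1) ∧ y ∉ S := by
            have hpos : (0 : ℝ) < 1 / ((i : ℝ) + 1) := by positivity
            by_cases hgS : g j X ∈ S
            · obtain ⟨M, hM⟩ := exists_nat_gt (‖z‖ * ((i : ℝ) + 1))
              have hM0 : (0 : ℝ) < M := lt_of_le_of_lt (by positivity) hM
              refine ⟨g j X + ((M : 𝕜)⁻¹) • z, X.1.add_mem (hgX j X) (X.1.smul_mem _ hz), ?_, ?_⟩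
              · rw [dist_eq_norm, add_sub_cancel_left, norm_smul, norm_inv, RCLike.norm_natCast,
                  inv_mul_lt_iff₀ hM0, mul_one_div, lt_div_iff₀ (by positivity)]
                exact hM
              · intro h4
                have h5 : ((M : 𝕜)⁻¹) • z ∈ S := by
                  have := S.sub_mem h4 hgS
                  rwa [add_sub_cancel_left] at this
                have h6 : z ∈ S := by
                  have h7 : (M : 𝕜) ≠ 0 := by
                    have : (M : ℕ) ≠ 0 := by
                      intro h8; rw [h8] at hM0; simp at hM0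
                    exact_mod_cast this
                  have h8 := S.smul_mem (M : 𝕜) h5
                  rwa [smul_inv_smul₀ h7] at h8
                exact hzS h6
            · exact ⟨g j X, hgX j X, by rw [dist_self]; exact hpos, hgS⟩
          obtain ⟨y, hyX, hyd, hyS⟩ := hy
          have hO : IsOpen {y : E | dist y (g j X) < 1 / ((i : ℝ) + 1) ∧
              LinearIndependent 𝕜 (Fin.snoc (α := fun _ => E) (fun l : Fin i => p l X) y)} := by
            refine IsOpen.inter ?_ ?_
            · exact isOpen_lt (continuous_id.dist continuous_const) continuous_const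
            · have hO : IsOpen {f : Fin (i + 1) → E | LinearIndependent 𝕜 f} :=
                isOpen_setOf_linearIndependent
              have hcont : Continuous fun y : E =>
                  (Fin.snoc (α := fun _ => E) (fun l : Fin i => p l X) y : Fin (i + 1) → E) := by
                refine continuous_pi fun l => ?_
                refine Fin.lastCases ?_ (fun l => ?_) l
                · simp only [Fin.snoc_last]
                  exact continuous_id
                · simp only [Fin.snoc_castSucc]
                  exact continuous_const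
              exact hO.preimage hcont
          have hyO : y ∈ {y : E | dist y (g j X) < 1 / ((i : ℝ) + 1) ∧
              LinearIndependent 𝕜 (Fin.snoc (α := fun _ => E) (fun l : Fin i => p l X) y)} :=
            ⟨hyd, linearIndependent_finSnoc.2 ⟨hli, hyS⟩⟩
          obtain ⟨m, hm⟩ := hgd X y _ hyX hyO hO
          exact ⟨m, Or.inl ⟨hX, hm.1, hm.2⟩⟩
        · exact ⟨j, Or.inr ⟨hX, rfl⟩⟩
      obtain ⟨f, hf, hfG⟩ := lc_choice (fun X O hO hX => clopen_base F X O hO hX) G hG hcov
      refine ⟨fun X => g (f X) X, ?_, ?_, ?_⟩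
      · rw [continuous_iff_continuousAt]
        intro X
        have h1 : (fun Y => g (f X) Y) =ᶠ[𝓝 X] fun Y => g (f Y) Y := by
          filter_upwards [hf X] with Y hY
          rw [hY]
        exact ((hgc (f X)).continuousAt (x := X)).congr h1
      · intro X
        refine ⟨hgX _ X, ?_⟩
        rcases hfG X with h1 | h1
        · exact h1.2.1.le
        · have h2 : f X = j := h1.2
          change dist (g (f X) X) (g j X) ≤ 1 / ((i : ℝ) + 1)
          rw [h2, dist_self]
          positivity
      · intro X hX
        rcases hfG X with h1 | h1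
        · convert h1.2.2 using 1
          funext l
          refine Fin.lastCases ?_ (fun l => ?_) l
          · simp
          · simp only [Fin.snoc_castSucc, Fin.val_castSucc]
            rw [Function.update_of_ne (by have := l.2; omega)]
        · exact absurd hX h1.1)
    refine ⟨h, fun i => (hh i).1, fun X => ?_, fun X hX => ?_⟩
    · apply subset_antisymm
      · intro x hx
        have h1 : ∀ m, g m X ∈ closure (Set.range fun i => h i X) := by
          intro m
          rw [Metric.mem_closure_iff]
          intro ε hε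
          obtain ⟨N, hN⟩ := exists_nat_gt (1 / ε)
          have h2 := ((hh (Nat.pair m N)).2.1 X).2
          rw [Nat.unpair_pair] at h2
          refine ⟨h (Nat.pair m N) X, ⟨_, rfl⟩, ?_⟩
          rw [dist_comm]
          refine lt_of_le_of_lt h2 ?_
          have h3 : N ≤ Nat.pair m N := Nat.right_le_pair m N
          have h4 : (N : ℝ) ≤ (Nat.pair m N : ℕ) := by exact_mod_cast h3
          rw [div_lt_iff₀ (by positivity)]
          rw [div_lt_iff₀ hε] at hN
          nlinarith
        rw [Metric.mem_closure_iff]
        intro ε hε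
        obtain ⟨m, hm⟩ := hgd X x (Metric.ball x (ε / 2)) hx (Metric.mem_ball_self (by linarith))
          Metric.isOpen_ball
        obtain ⟨b, hb, hmb⟩ := Metric.mem_closure_iff.1 (h1 m) (ε / 2) (by linarith)
        refine ⟨b, hb, ?_⟩
        rw [Metric.mem_ball, dist_comm] at hm
        have := dist_triangle x (g m X) b
        linarith
      · refine closure_minimal ?_ X.2
        rintro _ ⟨i, rfl⟩
        exact ((hh i).2.1 X).1
    · have hD : ∀ i, X ∈ D 𝕜 (i + 1) := by
        intro i
        by_contra h1
        exact hX (not_mem_D X i h1).1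
      rw [linearIndependent_iff_finset_linearIndependent]
      intro s
      obtain ⟨N, hN⟩ : ∃ N, ∀ i ∈ s, i < N + 1 := ⟨s.sup id, fun i hi => by
        have := Finset.le_sup (f := id) hi
        simp only [id] at this
        omega⟩
      have h1 := (hh N).2.2 X (hD N)
      rw [Function.update_eq_self] at h1
      have h2 := h1.comp (fun i : s => (⟨i, hN i i.2⟩ : Fin (N + 1))) (by
        intro a b hab
        simp only [Fin.mk.injEq] at hab
        exact Subtype.ext hab)
      exact h2

end Pool.Agent.Q307.SBC
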