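import Pool.Agent.Q307.SBC.Top

set_option autoImplicit false

/-! The continuous choice of dense linearly independent sequences. -/

open Filter Topology Set

namespace Pool.Agent.Q307.SBC

/-- recursion with finite histories -/
theorem exists_seq_rec {α : Type*} [Nonempty α] (Good : ℕ → (ℕ → α) → α → Prop)
    (hcongr : ∀ i p q a, (∀ l < i, p l = q l) → Good i p a → Good i q a)
    (step : ∀ i p, (∀ l < i, Good l p (p l)) → ∃ a, Good i p a) :
    ∃ h : ℕ → α, ∀ i, Good i h (h i) := by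
  classical
  let nxt : ℕ → (ℕ → α) → α := fun i p =>
    if hp : ∃ a, Good i p a then hp.choose else Classical.arbitrary α
  let P : ℕ → ℕ → α := fun i => Nat.rec (motive := fun _ => ℕ → α)
    (fun _ => Classical.arbitrary α) (fun i p => Function.update p i (nxt i p)) i
  have hPs : ∀ i, P (i + 1) = Function.update (P i) i (nxt i (P i)) := fun i => rfl
  have hst : ∀ i l, l < i → ∀ j, i ≤ j → P j l = P i l := by
    intro i l hl j hj
    induction j, hj using Nat.le_induction with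
    | base => rfl
    | succ j hj ih =>
      rw [hPs, Function.update_of_ne (by omega), ih]
  have hgood : ∀ i, ∀ l < i, Good l (P i) (P i l) := by
    intro i
    induction i with
    | zero => intro l hl; omega
    | succ i ih =>
      intro l hl
      rcases Nat.lt_succ_iff_lt_or_eq.1 hl with h | h
      · have h1 := ih l h
        rw [hst i l h (i + 1) (by omega)]
        refine hcongr l (P i) (P (i + 1)) _ (fun l' hl' => ?_) h1
        rw [hst i l' (by omega) (i + 1) (by omega)]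
      · subst h
        have h1 : P (l + 1) l = nxt l (P l) := by rw [hPs, Function.update_self]
        rw [h1]
        have h2 : Good l (P l) (nxt l (P l)) := by
          have h3 := step l (P l) ih
          simp only [nxt, dif_pos h3]
          exact h3.choose_spec
        refine hcongr l (P l) (P (l + 1)) _ (fun l' hl' => ?_) h2
        rw [hst l l' hl' (l + 1) (by omega)]
  refine ⟨fun i => P (i + 1) i, fun i => ?_⟩
  have h1 := hgood (i + 1) i (by omega)
  refine hcongr i (P (i + 1)) _ _ (fun l hl => ?_) h1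
  exact hst (l + 1) l (by omega) (i + 1) (by omega)

/-- a locally constant choice from an open cover -/
theorem lc_choice {T : Type*} [TopologicalSpace T] [SecondCountableTopology T]
    (hT : ∀ (X : T) (O : Set T), IsOpen O → X ∈ O → ∃ C : Set T, IsClopen C ∧ X ∈ C ∧ C ⊆ O)
    (G : ℕ → Set T) (hG : ∀ m, IsOpen (G m)) (hcov : ∀ X, ∃ m, X ∈ G m) :
    ∃ f : T → ℕ, (∀ X, ∀ᶠ Y in 𝓝 X, f Y = f X) ∧ ∀ X, X ∈ G (f X) := by
  classical
  choose m hm using hcov
  choose C hC hXC hCO using fun X => hT X (G (m X)) (hG _) (hm X)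
  obtain ⟨s, hs, hsu⟩ := TopologicalSpace.countable_cover_nhds
    (fun X => (hC X).isOpen.mem_nhds (hXC X))
  rcases s.eq_empty_or_nonempty with h0 | h0
  · have hemp : ∀ X : T, False := by
      intro X
      have : X ∈ ⋃ x ∈ s, C x := by rw [hsu]; trivial
      rw [h0] at this
      simp at this
    exact ⟨fun _ => 0, fun X => (hemp X).elim, fun X => (hemp X).elim⟩
  · obtain ⟨e, he⟩ := hs.exists_eq_range h0
    have hcov' : ∀ X : T, ∃ j, X ∈ C (e j) := by
      intro X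
      have : X ∈ ⋃ x ∈ s, C x := by rw [hsu]; trivial
      rw [he] at this
      simpa using this
    refine ⟨fun X => m (e (Nat.find (hcov' X))), ?_, ?_⟩
    · intro X
      have h1 : ∀ᶠ Y in 𝓝 X, Y ∈ C (e (Nat.find (hcov' X))) :=
        (hC _).isOpen.mem_nhds (Nat.find_spec (hcov' X))
      have h2 : ∀ᶠ Y in 𝓝 X, ∀ j ∈ Finset.range (Nat.find (hcov' X)), Y ∉ C (e j) := by
        rw [Finset.eventually_all]
        intro j hj
        exact (hC (e j)).compl.isOpen.mem_nhds (Nat.find_min (hcov' X) (Finset.mem_range.1 hj))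
      filter_upwards [h1, h2] with Y hY1 hY2
      have h3 : Nat.find (hcov' Y) = Nat.find (hcov' X) := by
        rw [Nat.find_eq_iff]
        exact ⟨hY1, fun j hj => hY2 j (Finset.mem_range.2 hj)⟩
      rw [h3]
    · intro X
      exact hCO _ (Nat.find_spec (hcov' X))

section Dim

variable {𝕜 E : Type*} [RCLike 𝕜] [NormedAddCommGroup E] [NormedSpace 𝕜 E]

/-- a countable separating family of functionals -/
theorem exists_sep (𝕜 E : Type*) [RCLike 𝕜] [NormedAddCommGroup E] [NormedSpace 𝕜 E]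
    [TopologicalSpace.SeparableSpace E] :
    ∃ φ : ℕ → (E →L[𝕜] 𝕜), ∀ x : E, (∀ i, φ i x = 0) → x = 0 := by
  obtain ⟨u, hu⟩ := TopologicalSpace.exists_dense_seq E
  have h : ∀ n, ∃ g : E →L[𝕜] 𝕜, ‖g‖ ≤ 1 ∧ g (u n) = (‖u n‖ : 𝕜) := by
    intro n
    obtain ⟨g, hg, hgx⟩ := exists_dual_vector'' 𝕜 (u n)
    exact ⟨g, hg, hgx⟩
  choose φ hφ hφu using h
  refine ⟨φ, fun x hx => ?_⟩
  by_contra hne
  have hpos : 0 < ‖x‖ := norm_pos_iff.2 hne
  obtain ⟨n, hn⟩ := hu.exists_dist_lt x (show (0 : ℝ) < ‖x‖ / 4 by linarith)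
  have h1 : ‖φ n (u n)‖ = ‖u n‖ := by rw [hφu]; simp
  have h2 : φ n (u n) = φ n (u n - x) := by rw [map_sub, hx n, sub_zero]
  have h3 : ‖φ n (u n - x)‖ ≤ ‖u n - x‖ :=
    ((φ n).le_opNorm _).trans (by
      have := mul_le_mul_of_nonneg_right (hφ n) (norm_nonneg (u n - x))
      linarith)
  have h4 : ‖u n - x‖ < ‖x‖ / 4 := by
    rw [dist_comm, dist_eq_norm] at hn
    exact hn
  have h5 : ‖x‖ ≤ ‖u n‖ + ‖u n - x‖ := by
    have : x = u n - (u n - x) := by abel
    calc ‖x‖ = ‖u n - (u n - x)‖ := by rw [← this]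
      _ ≤ ‖u n‖ + ‖u n - x‖ := norm_sub_le _ _
  rw [← h1, h2] at h5
  linarith

/-- finitely many of the functionals separate a finite dimensional subspace -/
theorem exists_finset (φ : ℕ → (E →L[𝕜] 𝕜)) (hφ : ∀ x : E, (∀ i, φ i x = 0) → x = 0) (d : ℕ) :
    ∀ X : Submodule 𝕜 E, FiniteDimensional 𝕜 X → Module.finrank 𝕜 X ≤ d →
      ∃ s : Finset ℕ, s.card ≤ d ∧ ∀ x ∈ X, (∀ i ∈ s, φ i x = 0) → x = 0 := by
  classical
  induction d with
  | zero =>
    intro X _ hX
    refine ⟨∅, le_rfl, fun x hx _ => ?_⟩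
    have h1 : Module.finrank 𝕜 X = 0 := by omega
    rw [Submodule.finrank_eq_zero] at h1
    rw [h1] at hx
    exact (Submodule.mem_bot 𝕜).1 hx
  | succ d ih =>
    intro X hfd hX
    by_cases h0 : X = ⊥
    · refine ⟨∅, by simp, fun x hx _ => ?_⟩
      rw [h0] at hx
      exact (Submodule.mem_bot 𝕜).1 hx
    · obtain ⟨x, hx, hx0⟩ := Submodule.exists_mem_ne_zero_of_ne_bot h0
      have h1 : ∃ i, φ i x ≠ 0 := by
        by_contra h2
        push Not at h2
        exact hx0 (hφ x h2)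
      obtain ⟨i, hi⟩ := h1
      let Y : Submodule 𝕜 E := X ⊓ (LinearMap.ker (φ i).toLinearMap)
      have hYX : Y ≤ X := inf_le_left
      haveI : FiniteDimensional 𝕜 Y := Submodule.finiteDimensional_of_le hYX
      have hlt : Y < X := by
        refine lt_of_le_of_ne hYX fun h => ?_
        have h3 : x ∈ Y := by rw [h]; exact hx
        exact hi h3.2
      have h4 := Submodule.finrank_lt_finrank_of_lt hlt
      obtain ⟨s, hs, hsY⟩ := ih Y inferInstance (by omega)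
      refine ⟨insert i s, (Finset.card_insert_le _ _).trans (by omega), fun y hy h5 => ?_⟩
      refine hsY y ⟨hy, ?_⟩ fun j hj => h5 j (Finset.mem_insert_of_mem hj)
      exact h5 i (Finset.mem_insert_self _ _)

/-- the open sets whose complements are the cones -/
def V (φ : ℕ → (E →L[𝕜] 𝕜)) (q : Finset ℕ × ℕ) : Set E :=
  {x | (q.2 : ℝ) * ∑ i ∈ q.1, ‖φ i x‖ < ‖x‖}

theorem V_open (φ : ℕ → (E →L[𝕜] 𝕜)) (q : Finset ℕ × ℕ) : IsOpen (V φ q) := by
  apply isOpen_lt
  · exact continuous_const.mul (continuous_finsetSum _ fun i _ => (φ i).continuous.norm)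
  · exact continuous_norm

/-- dimension at least `i` -/
def D (𝕜 : Type*) {E : Type*} [RCLike 𝕜] [NormedAddCommGroup E] [NormedSpace 𝕜 E] (i : ℕ) :
    Set (SB 𝕜 E) := {X | ∃ v : Fin i → E, (∀ j, v j ∈ X.1) ∧ LinearIndependent 𝕜 v}

theorem mem_D_iff (X : SB 𝕜 E) (i : ℕ) : X ∈ D 𝕜 i ↔ (i : Cardinal) ≤ Module.rank 𝕜 X.1 := by
  rw [Module.le_rank_iff]
  constructor
  · rintro ⟨v, hv, hli⟩
    refine ⟨fun j => ⟨v j, hv j⟩, ?_⟩
    exact LinearIndependent.of_comp X.1.subtype hli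
  · rintro ⟨v, hli⟩
    refine ⟨fun j => (v j : E), fun j => (v j).2, ?_⟩
    exact hli.map' X.1.subtype (Submodule.ker_subtype _)

theorem not_mem_D (X : SB 𝕜 E) (i : ℕ) (h : X ∉ D 𝕜 (i + 1)) :
    FiniteDimensional 𝕜 X.1 ∧ Module.finrank 𝕜 X.1 ≤ i := by
  rw [mem_D_iff, not_le] at h
  have hfin : FiniteDimensional 𝕜 X.1 := by
    rw [FiniteDimensional, ← Module.rank_lt_aleph0_iff]
    exact h.trans (Cardinal.natCast_lt_aleph0)
  refine ⟨hfin, ?_⟩
  rw [← Module.finrank_eq_rank] at h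
  have := Nat.cast_lt.1 h
  omega

/-- a space which misses the open set `V` has small dimension -/
theorem V_small (φ : ℕ → (E →L[𝕜] 𝕜)) (q : Finset ℕ × ℕ) (X : SB 𝕜 E)
    (hX : X ∉ EPlus (𝕜 := 𝕜) (V φ q)) (i : ℕ) (hi : q.1.card ≤ i) : X ∉ D 𝕜 (i + 1) := by
  rintro ⟨v, hv, hli⟩
  let L : X.1 →ₗ[𝕜] (q.1 → 𝕜) := LinearMap.pi fun j => (φ j).toLinearMap.comp X.1.subtype
  have hL : Function.Injective L := by
    rw [← LinearMap.ker_eq_bot, LinearMap.ker_eq_bot']
    intro x hx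
    have h1 : ∀ j ∈ q.1, φ j x = 0 := fun j hj => congrFun hx ⟨j, hj⟩
    have h2 : ¬ ((q.2 : ℝ) * ∑ i ∈ q.1, ‖φ i (x : E)‖ < ‖(x : E)‖) := fun h3 =>
      hX ⟨x, x.2, h3⟩
    rw [Finset.sum_eq_zero (fun j hj => by rw [h1 j hj, norm_zero]), mul_zero, not_lt] at h2
    have h3 : ‖(x : E)‖ = 0 := le_antisymm h2 (norm_nonneg _)
    exact Subtype.ext (norm_eq_zero.1 h3)
  have h1 : LinearIndependent 𝕜 (fun j : Fin (i + 1) => (⟨v j, hv j⟩ : X.1)) :=
    LinearIndependent.of_comp X.1.subtype hli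
  have h2 := h1.map' L (LinearMap.ker_eq_bot.2 hL)
  have h3 := h2.fintype_card_le_finrank
  rw [Module.finrank_fintype_fun_eq_card] at h3
  simp only [Fintype.card_fin, Fintype.card_coe] at h3
  omega

/-- a space of small dimension misses some `V` -/
theorem small_V (φ : ℕ → (E →L[𝕜] 𝕜)) (hφ : ∀ x : E, (∀ i, φ i x = 0) → x = 0) (X : SB 𝕜 E)
    (i : ℕ) (hX : X ∉ D 𝕜 (i + 1)) :
    ∃ q : Finset ℕ × ℕ, q.1.card ≤ i ∧ X ∉ EPlus (𝕜 := 𝕜) (V φ q) := by
  obtain ⟨hfd, hr⟩ := not_mem_D X i hX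
  obtain ⟨s, hs, hsX⟩ := exists_finset φ hφ i X.1 hfd hr
  let L : X.1 →ₗ[𝕜] (s → 𝕜) := LinearMap.pi fun j => (φ j).toLinearMap.comp X.1.subtype
  have hL : LinearMap.ker L = ⊥ := by
    rw [LinearMap.ker_eq_bot']
    intro x hx
    exact Subtype.ext (hsX x x.2 fun j hj => congrFun hx ⟨j, hj⟩)
  obtain ⟨K, hK, hKL⟩ := LinearMap.exists_antilipschitzWith L hL
  obtain ⟨M, hM⟩ := exists_nat_ge (K : ℝ)
  refine ⟨(s, M), hs, ?_⟩
  rintro ⟨x, hx, hxV⟩
  have h1 := hKL.le_mul_dist ⟨x, hx⟩ 0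
  rw [map_zero, dist_zero_right, dist_zero_right] at h1
  have h2 : ‖L ⟨x, hx⟩‖ ≤ ∑ j ∈ s, ‖φ j x‖ := by
    rw [pi_norm_le_iff_of_nonneg (Finset.sum_nonneg fun j _ => norm_nonneg _)]
    intro j
    exact Finset.single_le_sum (f := fun j => ‖φ j x‖) (fun j _ => norm_nonneg _) j.2
  have h3 : ‖(⟨x, hx⟩ : X.1)‖ = ‖x‖ := rfl
  rw [h3] at h1
  have h4 : (K : ℝ) * ‖L ⟨x, hx⟩‖ ≤ (M : ℝ) * ∑ j ∈ s, ‖φ j x‖ :=
    mul_le_mul hM h2 (norm_nonneg _) (by positivity)
  have h5 : (M : ℝ) * ∑ j ∈ s, ‖φ j x‖ < ‖x‖ := hxV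
  linarith

end Dim

end Pool.Agent.Q307.SBC
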