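import Pool.Agent.Q307.SBC.Defs

set_option autoImplicit false

/-! The topology on the closed subspaces generated by the sets `E^+(W_n)` and their complements,
for a countable family of open sets which contains a base: it is Polish, has a clopen base and
continuous selections. -/

open Filter Topology Set

namespace Pool.Agent.Q307.SBC

/-- nested sets with small diameters have a common point -/
theorem nest {E : Type*} [MetricSpace E] [CompleteSpace E] (C : ℕ → Set E)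
    (hne : ∀ k, (C k).Nonempty) (hcl : ∀ k, closure (C (k + 1)) ⊆ C k)
    (hd : ∀ k, ∀ x ∈ C (k + 1), ∀ y ∈ C (k + 1), dist x y ≤ (1 / 2) ^ k) :
    ∃ x, ∀ k, x ∈ C k := by
  choose p hp using hne
  have hanti : ∀ k j, C (k + j) ⊆ C k := by
    intro k j
    induction j with
    | zero => exact subset_rfl
    | succ j ih => exact (subset_closure.trans (hcl (k + j))).trans ih
  have hmem : ∀ k j, k ≤ j → p j ∈ C k := by
    intro k j h
    obtain ⟨i, rfl⟩ := Nat.exists_eq_add_of_le h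
    exact hanti k i (hp _)
  have hc : CauchySeq p := by
    rw [Metric.cauchySeq_iff']
    intro ε hε
    obtain ⟨k, hk⟩ := exists_pow_lt_of_lt_one hε (by norm_num : (1 / 2 : ℝ) < 1)
    refine ⟨k + 1, fun n hn => lt_of_le_of_lt (hd k _ (hmem _ _ hn) _ (hmem _ _ le_rfl)) hk⟩
  obtain ⟨x, hx⟩ := cauchySeq_tendsto_of_complete hc
  refine ⟨x, fun k => hcl k ?_⟩
  refine mem_closure_of_tendsto hx ?_
  filter_upwards [eventually_ge_atTop (k + 1)] with n hn using hmem _ _ hn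

section Family

variable {𝕜 E : Type*} [RCLike 𝕜] [NormedAddCommGroup E] [NormedSpace 𝕜 E]

/-- A countable family of open sets containing a base. -/
structure Fam (E : Type*) [TopologicalSpace E] where
  W : ℕ → Set E
  op : ∀ n, IsOpen (W n)
  base : ∀ (O : Set E) (x : E), IsOpen O → x ∈ O → ∃ n, x ∈ W n ∧ W n ⊆ O

/-- the generating sets -/
def Fam.gen (𝕜 : Type*) {E : Type*} [RCLike 𝕜] [NormedAddCommGroup E] [NormedSpace 𝕜 E]
    (F : Fam E) : Set (Set (SB 𝕜 E)) :=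
  {S | ∃ n, S = EPlus (F.W n) ∨ S = (EPlus (F.W n))ᶜ}

/-- the topology -/
def Fam.top (𝕜 : Type*) {E : Type*} [RCLike 𝕜] [NormedAddCommGroup E] [NormedSpace 𝕜 E]
    (F : Fam E) : TopologicalSpace (SB 𝕜 E) :=
  TopologicalSpace.generateFrom (F.gen 𝕜)

theorem Fam.clopen (F : Fam E) (n : ℕ) : @IsClopen (SB 𝕜 E) (F.top 𝕜) (EPlus (F.W n)) := by
  letI := F.top 𝕜
  constructor
  · constructor
    exact TopologicalSpace.isOpen_generateFrom_of_mem ⟨n, Or.inr rfl⟩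
  · exact TopologicalSpace.isOpen_generateFrom_of_mem ⟨n, Or.inl rfl⟩

theorem Fam.hit (F : Fam E) (U : Set E) (hU : IsOpen U) :
    @IsOpen (SB 𝕜 E) (F.top 𝕜) (EPlus U) := by
  letI := F.top 𝕜
  have h : (EPlus U : Set (SB 𝕜 E)) = ⋃ n ∈ {n | F.W n ⊆ U}, EPlus (F.W n) := by
    ext X
    simp only [EPlus, mem_setOf_eq, mem_iUnion, exists_prop]
    constructor
    · rintro ⟨x, hx, hxU⟩
      obtain ⟨n, hn, hnU⟩ := F.base U x hU hxU
      exact ⟨n, hnU, x, hx, hn⟩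
    · rintro ⟨n, hnU, x, hx, hn⟩
      exact ⟨x, hx, hnU hn⟩
  rw [h]
  exact isOpen_biUnion fun n _ => (F.clopen n).isOpen

theorem mem_iff_hit (F : Fam E) (X : SB 𝕜 E) (x : E) :
    x ∈ X.1 ↔ ∀ n, x ∈ F.W n → X ∈ EPlus (𝕜 := 𝕜) (F.W n) := by
  constructor
  · intro hx n hn
    exact ⟨x, hx, hn⟩
  · intro h
    by_contra hx
    obtain ⟨n, hn, hnU⟩ := F.base ((X.1 : Set E)ᶜ) x X.2.isOpen_compl hx
    obtain ⟨y, hy, hyn⟩ := h n hn
    exact hnU hyn hy

/-- `m` is a small set well inside `n` -/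
def Fam.P (F : Fam E) (n k m : ℕ) : Prop :=
  closure (F.W m) ⊆ F.W n ∧ ∀ x ∈ F.W m, ∀ y ∈ F.W m, dist x y ≤ (1 / 2) ^ k

theorem Fam.exP (F : Fam E) (X : SB 𝕜 E) (n k : ℕ) (h : X ∈ EPlus (𝕜 := 𝕜) (F.W n)) :
    ∃ m, F.P n k m ∧ X ∈ EPlus (𝕜 := 𝕜) (F.W m) := by
  obtain ⟨x, hx, hxn⟩ := h
  obtain ⟨r, hr, hrn⟩ := Metric.isOpen_iff.1 (F.op n) x hxn
  set s : ℝ := min (r / 2) ((1 / 2) ^ (k + 1)) with hs
  have hs0 : 0 < s := lt_min (by linarith) (by positivity)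
  obtain ⟨m, hm, hmU⟩ := F.base (Metric.ball x s) x Metric.isOpen_ball (Metric.mem_ball_self hs0)
  refine ⟨m, ⟨?_, ?_⟩, x, hx, hm⟩
  · intro y hy
    apply hrn
    have h1 : y ∈ Metric.closedBall x s :=
      (closure_minimal (hmU.trans Metric.ball_subset_closedBall) Metric.isClosed_closedBall) hy
    rw [Metric.mem_closedBall] at h1
    rw [Metric.mem_ball]
    have h2 : s ≤ r / 2 := min_le_left _ _
    linarith
  · intro y hy z hz
    have h1 := hmU hy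
    have h2 := hmU hz
    rw [Metric.mem_ball] at h1 h2
    have h3 : s ≤ (1 / 2) ^ (k + 1) := min_le_right _ _
    have h4 : ((1 : ℝ) / 2) ^ (k + 1) = (1 / 2) ^ k / 2 := by rw [pow_succ]; ring
    have h5 := dist_triangle_right y z x
    linarith

open Classical in
/-- the witness function -/
noncomputable def Fam.w (F : Fam E) (X : SB 𝕜 E) (p : ℕ × ℕ) : ℕ :=
  if h : ∃ m, F.P p.1 p.2 m ∧ X ∈ EPlus (𝕜 := 𝕜) (F.W m) then Nat.find h + 1 else 0

theorem Fam.w_ne_zero (F : Fam E) (X : SB 𝕜 E) (n k : ℕ) :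
    F.w X (n, k) ≠ 0 ↔ X ∈ EPlus (𝕜 := 𝕜) (F.W n) := by
  classical
  constructor
  · intro h
    unfold Fam.w at h
    split_ifs at h with h1
    · obtain ⟨m, hm, x, hx, hxm⟩ := h1
      exact ⟨x, hx, hm.1 (subset_closure hxm)⟩
    · exact absurd rfl h
  · intro h
    unfold Fam.w
    rw [dif_pos (F.exP X n k h)]
    exact Nat.succ_ne_zero _

theorem Fam.w_spec (F : Fam E) (X : SB 𝕜 E) (n k m : ℕ) :
    F.w X (n, k) = m + 1 ↔ (F.P n k m ∧ X ∈ EPlus (𝕜 := 𝕜) (F.W m)) ∧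
      ∀ m' < m, ¬ (F.P n k m' ∧ X ∈ EPlus (𝕜 := 𝕜) (F.W m')) := by
  classical
  unfold Fam.w
  split_ifs with h1
  · rw [Nat.succ_inj, Nat.find_eq_iff]
  · constructor
    · intro h; exact h.elim
    · intro h; exact absurd ⟨m, h.1⟩ h1

theorem Fam.w_lc (F : Fam E) (p : ℕ × ℕ) (X : SB 𝕜 E) :
    ∀ᶠ Y in @nhds _ (F.top 𝕜) X, F.w Y p = F.w X p := by
  letI := F.top 𝕜
  obtain ⟨n, k⟩ := p
  rcases Nat.eq_zero_or_eq_succ_pred (F.w X (n, k)) with h0 | h0
  · have h1 : X ∈ (EPlus (F.W n) : Set (SB 𝕜 E))ᶜ := by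
      intro h2
      exact ((F.w_ne_zero X n k).2 h2) h0
    filter_upwards [(F.clopen (𝕜 := 𝕜) n).compl.isOpen.mem_nhds h1] with Y hY
    rw [h0]
    by_contra h3
    exact hY ((F.w_ne_zero Y n k).1 h3)
  · set m := (F.w X (n, k)).pred with hm
    have h0' : F.w X (n, k) = m + 1 := h0
    rw [h0']
    obtain ⟨⟨hP, hX⟩, hmin⟩ := (F.w_spec X n k m).1 h0'
    have h2 : ∀ᶠ Y in 𝓝 X, Y ∈ EPlus (𝕜 := 𝕜) (F.W m) := (F.clopen m).isOpen.mem_nhds hX
    have h3 : ∀ᶠ Y in 𝓝 X, ∀ m' ∈ Finset.range m,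
        ¬ (F.P n k m' ∧ Y ∈ EPlus (𝕜 := 𝕜) (F.W m')) := by
      rw [Finset.eventually_all]
      intro m' hm'
      by_cases hP' : F.P n k m'
      · have h4 : X ∈ (EPlus (F.W m') : Set (SB 𝕜 E))ᶜ := fun h5 =>
          hmin m' (Finset.mem_range.1 hm') ⟨hP', h5⟩
        filter_upwards [(F.clopen (𝕜 := 𝕜) m').compl.isOpen.mem_nhds h4] with Y hY
        exact fun h6 => hY h6.2
      · filter_upwards with Y h6 using hP' h6.1
    filter_upwards [h2, h3] with Y hY2 hY3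
    exact (F.w_spec Y n k m).2 ⟨⟨hP, hY2⟩, fun m' hm' => hY3 m' (Finset.mem_range.2 hm')⟩

theorem Fam.w_cont (F : Fam E) : @Continuous (SB 𝕜 E) (ℕ × ℕ → ℕ) (F.top 𝕜) _ F.w := by
  letI := F.top 𝕜
  refine continuous_pi fun p => ?_
  rw [continuous_iff_continuousAt]
  intro X
  exact tendsto_nhds_of_eventually_eq (F.w_lc p X)

theorem Fam.w_inj (F : Fam E) : Function.Injective (F.w : SB 𝕜 E → ℕ × ℕ → ℕ) := by
  intro X Y h
  apply Subtype.ext
  ext x
  rw [mem_iff_hit F X x, mem_iff_hit F Y x]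
  refine forall_congr' fun n => ?_
  rw [← F.w_ne_zero X n 0, ← F.w_ne_zero Y n 0, h]

theorem Fam.w_ind (F : Fam E) :
    F.top 𝕜 = TopologicalSpace.induced (F.w : SB 𝕜 E → ℕ × ℕ → ℕ) inferInstance := by
  apply le_antisymm
  · rw [← continuous_iff_le_induced]
    exact F.w_cont
  · apply le_generateFrom
    rintro S ⟨n, hn⟩
    letI : TopologicalSpace (SB 𝕜 E) :=
      TopologicalSpace.induced (F.w : SB 𝕜 E → ℕ × ℕ → ℕ) inferInstance
    have hc : Continuous (F.w : SB 𝕜 E → ℕ × ℕ → ℕ) := continuous_induced_dom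
    have h1 : IsClopen (EPlus (F.W n) : Set (SB 𝕜 E)) := by
      have h2 : (EPlus (F.W n) : Set (SB 𝕜 E)) = (fun X => F.w X (n, 0)) ⁻¹' {0}ᶜ := by
        ext X
        exact (F.w_ne_zero X n 0).symm
      rw [h2]
      exact (isClopen_discrete _).preimage ((continuous_apply (n, 0)).comp hc)
    rcases hn with rfl | rfl
    · exact h1.isOpen
    · exact h1.compl.isOpen

variable [CompleteSpace E]

/-- an abstract chain -/
theorem Fam.chain_pt (F : Fam E) (A : Set ℕ) (a : ℕ × ℕ → ℕ)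
    (hA : ∀ n ∈ A, (F.W n).Nonempty)
    (ha : ∀ n ∈ A, ∀ k, a (n, k) ∈ A ∧ F.P n k (a (n, k))) (n : ℕ) (hn : n ∈ A) :
    ∃ x, ∀ k, x ∈ F.W (Nat.rec (motive := fun _ => ℕ) n (fun k m => a (m, k)) k) := by
  set c : ℕ → ℕ := fun k => Nat.rec (motive := fun _ => ℕ) n (fun k m => a (m, k)) k with hc
  have hcA : ∀ k, c k ∈ A := by
    intro k
    induction k with
    | zero => exact hn
    | succ k ih => exact (ha (c k) ih k).1
  have hcP : ∀ k, F.P (c k) k (c (k + 1)) := fun k => (ha (c k) (hcA k) k).2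
  exact nest (fun k => F.W (c k)) (fun k => hA _ (hcA k)) (fun k => (hcP k).1)
    (fun k => (hcP k).2)

theorem Fam.closed_range (F : Fam E) : IsClosed (Set.range (F.w : SB 𝕜 E → ℕ × ℕ → ℕ)) := by
  rw [← closure_subset_iff_isClosed]
  intro a ha
  -- finite agreement
  have hfin : ∀ s : Finset (ℕ × ℕ), ∃ X : SB 𝕜 E, ∀ p ∈ s, F.w X p = a p := by
    intro s
    have hO : IsOpen {b : ℕ × ℕ → ℕ | ∀ p ∈ s, b p = a p} := by
      have : {b : ℕ × ℕ → ℕ | ∀ p ∈ s, b p = a p} = ⋂ p ∈ s, (fun b => b p) ⁻¹' {a p} := by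
        ext b; simp
      rw [this]
      exact isOpen_biInter_finset fun p _ => (isOpen_discrete _).preimage (continuous_apply p)
    obtain ⟨b, hb, X, rfl⟩ := mem_closure_iff.1 ha _ hO (fun p _ => rfl)
    exact ⟨X, hb⟩
  set A : Set ℕ := {n | a (n, 0) ≠ 0} with hA
  have hmono : ∀ n p, n ∈ A → F.W n ⊆ F.W p → p ∈ A := by
    intro n p hn hnp
    obtain ⟨X, hX⟩ := hfin {(n, 0), (p, 0)}
    have h1 : F.w X (n, 0) ≠ 0 := by rw [hX _ (by simp)]; exact hn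
    rw [F.w_ne_zero] at h1
    obtain ⟨x, hx, hxn⟩ := h1
    have h2 : F.w X (p, 0) ≠ 0 := (F.w_ne_zero X p 0).2 ⟨x, hx, hnp hxn⟩
    rw [hX _ (by simp)] at h2
    exact h2
  have hadd : ∀ n m p, n ∈ A → m ∈ A → (∀ x ∈ F.W n, ∀ y ∈ F.W m, x + y ∈ F.W p) → p ∈ A := by
    intro n m p hn hm hnp
    obtain ⟨X, hX⟩ := hfin {(n, 0), (m, 0), (p, 0)}
    have h1 : F.w X (n, 0) ≠ 0 := by rw [hX _ (by simp)]; exact hn
    have h1' : F.w X (m, 0) ≠ 0 := by rw [hX _ (by simp)]; exact hm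
    rw [F.w_ne_zero] at h1 h1'
    obtain ⟨x, hx, hxn⟩ := h1
    obtain ⟨y, hy, hym⟩ := h1'
    have h2 : F.w X (p, 0) ≠ 0 := (F.w_ne_zero X p 0).2 ⟨x + y, X.1.add_mem hx hy, hnp x hxn y hym⟩
    rw [hX _ (by simp)] at h2
    exact h2
  have hsmul : ∀ (c : 𝕜) n p, n ∈ A → (∀ x ∈ F.W n, c • x ∈ F.W p) → p ∈ A := by
    intro c n p hn hnp
    obtain ⟨X, hX⟩ := hfin {(n, 0), (p, 0)}
    have h1 : F.w X (n, 0) ≠ 0 := by rw [hX _ (by simp)]; exact hn
    rw [F.w_ne_zero] at h1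
    obtain ⟨x, hx, hxn⟩ := h1
    have h2 : F.w X (p, 0) ≠ 0 := (F.w_ne_zero X p 0).2 ⟨c • x, X.1.smul_mem c hx, hnp x hxn⟩
    rw [hX _ (by simp)] at h2
    exact h2
  have hzero : ∀ p, (0 : E) ∈ F.W p → p ∈ A := by
    intro p hp
    obtain ⟨X, hX⟩ := hfin {(p, 0)}
    have h2 : F.w X (p, 0) ≠ 0 := (F.w_ne_zero X p 0).2 ⟨0, X.1.zero_mem, hp⟩
    rw [hX _ (by simp)] at h2
    exact h2
  have hne : ∀ n ∈ A, (F.W n).Nonempty := by
    intro n hn
    obtain ⟨X, hX⟩ := hfin {(n, 0)}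
    have h1 : F.w X (n, 0) ≠ 0 := by rw [hX _ (by simp)]; exact hn
    rw [F.w_ne_zero] at h1
    obtain ⟨x, hx, hxn⟩ := h1
    exact ⟨x, hxn⟩
  have hstep : ∀ n ∈ A, ∀ k, (a (n, k) - 1) ∈ A ∧ F.P n k (a (n, k) - 1) := by
    intro n hn k
    obtain ⟨X, hX⟩ := hfin {(n, 0), (n, k), (a (n, k) - 1, 0)}
    have h1 : F.w X (n, 0) ≠ 0 := by rw [hX _ (by simp)]; exact hn
    rw [F.w_ne_zero] at h1
    have h2 : F.w X (n, k) ≠ 0 := (F.w_ne_zero X n k).2 h1
    have h3 : F.w X (n, k) = a (n, k) := hX _ (by simp)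
    have h4 : F.w X (n, k) = (a (n, k) - 1) + 1 := by omega
    obtain ⟨⟨h5, h6⟩, -⟩ := (F.w_spec X n k _).1 h4
    refine ⟨?_, h5⟩
    have h7 : F.w X (a (n, k) - 1, 0) ≠ 0 := (F.w_ne_zero X _ 0).2 h6
    rw [hX _ (by simp)] at h7
    exact h7
  -- the limit subspace
  let S : Set E := {x | ∀ n, x ∈ F.W n → n ∈ A}
  have hSadd : ∀ x ∈ S, ∀ y ∈ S, x + y ∈ S := by
    intro x hx y hy p hp
    have hcont : Continuous fun q : E × E => q.1 + q.2 := continuous_add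
    have hO := (F.op p).preimage hcont
    obtain ⟨u, v, hu, hv, hxu, hyv, huv⟩ := isOpen_prod_iff.1 hO x y hp
    obtain ⟨n, hn, hnu⟩ := F.base u x hu hxu
    obtain ⟨m, hm, hmv⟩ := F.base v y hv hyv
    refine hadd n m p (hx n hn) (hy m hm) fun x' hx' y' hy' => ?_
    have h9 : (x', y') ∈ u ×ˢ v := ⟨hnu hx', hmv hy'⟩
    exact huv h9
  have hSsmul : ∀ (c : 𝕜), ∀ x ∈ S, c • x ∈ S := by
    intro c x hx p hp
    have hcont : Continuous fun q : E => c • q := continuous_const_smul c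
    have hO := (F.op p).preimage hcont
    obtain ⟨n, hn, hnu⟩ := F.base _ x hO hp
    exact hsmul c n p (hx n hn) fun x' hx' => hnu hx'
  let X₀ : Submodule 𝕜 E :=
    { carrier := S
      add_mem' := fun {x y} hx hy => hSadd x hx y hy
      zero_mem' := fun p hp => hzero p hp
      smul_mem' := fun c x hx => hSsmul c x hx }
  have hcl : IsClosed (X₀ : Set E) := by
    have h1 : (X₀ : Set E) = ⋂ n ∈ Aᶜ, (F.W n)ᶜ := by
      ext x
      simp only [mem_iInter, mem_compl_iff]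
      constructor
      · intro hx n hn h; exact hn (hx n h)
      · intro h n hn
        by_contra h2
        exact h n h2 hn
    rw [h1]
    exact isClosed_biInter fun n _ => (F.op n).isClosed_compl
  let X : SB 𝕜 E := ⟨X₀, hcl⟩
  have hhit : ∀ n, X ∈ EPlus (𝕜 := 𝕜) (F.W n) ↔ n ∈ A := by
    intro n
    constructor
    · rintro ⟨x, hx, hxn⟩
      exact hx n hxn
    · intro hn
      obtain ⟨x, hx⟩ := F.chain_pt A (fun q => a q - 1) hne hstep n hn
      refine ⟨x, ?_, hx 0⟩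
      intro p hp
      obtain ⟨r, hr, hrp⟩ := Metric.isOpen_iff.1 (F.op p) x hp
      obtain ⟨k, hk⟩ := exists_pow_lt_of_lt_one hr (by norm_num : (1 / 2 : ℝ) < 1)
      set c : ℕ → ℕ := fun k => Nat.rec (motive := fun _ => ℕ) n (fun k m => a (m, k) - 1) k
        with hc
      have hcA : ∀ k, c k ∈ A := by
        intro k
        induction k with
        | zero => exact hn
        | succ k ih => exact (hstep (c k) ih k).1
      have hcP : ∀ k, F.P (c k) k (c (k + 1)) := fun k => (hstep (c k) (hcA k) k).2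
      refine hmono (c (k + 1)) p (hcA (k + 1)) ?_
      intro y hy
      apply hrp
      rw [Metric.mem_ball]
      exact lt_of_le_of_lt ((hcP k).2 y hy x (hx (k + 1))) hk
  refine ⟨X, ?_⟩
  funext q
  obtain ⟨n, k⟩ := q
  by_cases hn : n ∈ A
  · have hs := hstep n hn k
    obtain ⟨Y, hY⟩ := hfin (insert (n, 0) (insert (n, k)
      ((Finset.range (a (n, k))).image fun m => (m, 0))))
    have h1 : F.w Y (n, 0) ≠ 0 := by rw [hY _ (by simp)]; exact hn
    rw [F.w_ne_zero] at h1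
    have h2 : F.w Y (n, k) ≠ 0 := (F.w_ne_zero Y n k).2 h1
    have h3 : F.w Y (n, k) = a (n, k) := hY _ (by simp)
    have h4 : F.w Y (n, k) = (a (n, k) - 1) + 1 := by omega
    obtain ⟨⟨h5, h6⟩, h7⟩ := (F.w_spec Y n k _).1 h4
    rw [← h3, h4, F.w_spec]
    refine ⟨⟨h5, (hhit _).2 hs.1⟩, fun m' hm' h8 => h7 m' hm' ⟨h8.1, ?_⟩⟩
    have h9 := (hhit m').1 h8.2
    have h10 : F.w Y (m', 0) ≠ 0 := by
      rw [hY _ ?_]
      · exact h9
      · simp only [Finset.mem_insert, Finset.mem_image, Finset.mem_range, Prod.mk.injEq]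
        right; right
        exact ⟨m', by omega, rfl, trivial⟩
    exact (F.w_ne_zero Y m' 0).1 h10
  · have h1 : F.w X (n, k) = 0 := by
      by_contra h2
      exact hn ((hhit n).1 ((F.w_ne_zero X n k).1 h2))
    rw [h1]
    obtain ⟨Y, hY⟩ := hfin {(n, 0), (n, k)}
    have h3 : F.w Y (n, 0) = 0 := by
      rw [hY _ (by simp)]
      by_contra h4
      exact hn h4
    have h5 : Y ∉ EPlus (𝕜 := 𝕜) (F.W n) := fun h6 => (F.w_ne_zero Y n 0).2 h6 h3
    have h7 : F.w Y (n, k) = 0 := by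
      by_contra h8
      exact h5 ((F.w_ne_zero Y n k).1 h8)
    rw [← hY (n, k) (by simp), h7]

theorem Fam.polish (F : Fam E) : @PolishSpace (SB 𝕜 E) (F.top 𝕜) := by
  letI := F.top 𝕜
  have h1 : IsInducing (F.w : SB 𝕜 E → ℕ × ℕ → ℕ) := ⟨F.w_ind⟩
  have h2 : IsClosedEmbedding (F.w : SB 𝕜 E → ℕ × ℕ → ℕ) :=
    ⟨⟨h1, F.w_inj⟩, F.closed_range⟩
  exact h2.polishSpace

/-- continuous dense selections -/
theorem Fam.select (F : Fam E) : ∃ g : ℕ → SB 𝕜 E → E,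
    (∀ n, @Continuous (SB 𝕜 E) E (F.top 𝕜) _ (g n)) ∧ (∀ n X, g n X ∈ X.1) ∧
    (∀ (X : SB 𝕜 E) (x : E) (O : Set E), x ∈ X.1 → x ∈ O → IsOpen O → ∃ n, g n X ∈ O) := by
  classical
  letI := F.top 𝕜
  let c : SB 𝕜 E → ℕ → ℕ → ℕ := fun X n k =>
    Nat.rec (motive := fun _ => ℕ) n (fun k m => F.w X (m, k) - 1) k
  have hc0 : ∀ X n, c X n 0 = n := fun X n => rfl
  have hcs : ∀ X n k, c X n (k + 1) = F.w X (c X n k, k) - 1 := fun X n k => rfl
  have hclc : ∀ n k X, ∀ᶠ Y in 𝓝 X, c Y n k = c X n k := by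
    intro n k X
    induction k with
    | zero => exact Eventually.of_forall fun Y => rfl
    | succ k ih =>
      filter_upwards [ih, F.w_lc (c X n k, k) X] with Y h1 h2
      rw [hcs, hcs, h1, h2]
  have hex : ∀ n (X : SB 𝕜 E), X ∈ EPlus (𝕜 := 𝕜) (F.W n) →
      ∃ x ∈ X.1, ∀ k, x ∈ F.W (c X n k) := by
    intro n X hX
    set A : Set ℕ := {m | X ∈ EPlus (𝕜 := 𝕜) (F.W m)} with hA
    have hstep : ∀ m ∈ A, ∀ k, F.w X (m, k) - 1 ∈ A ∧ F.P m k (F.w X (m, k) - 1) := by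
      intro m hm k
      have h2 : F.w X (m, k) ≠ 0 := (F.w_ne_zero X m k).2 hm
      have h4 : F.w X (m, k) = (F.w X (m, k) - 1) + 1 := by omega
      obtain ⟨⟨h5, h6⟩, -⟩ := (F.w_spec X m k _).1 h4
      exact ⟨h6, h5⟩
    obtain ⟨x, hx⟩ := F.chain_pt A (fun q => F.w X q - 1)
      (fun m hm => by obtain ⟨x, -, hxm⟩ := hm; exact ⟨x, hxm⟩) hstep n hX
    refine ⟨x, ?_, hx⟩
    have hcA : ∀ k, c X n k ∈ A := by
      intro k
      induction k with
      | zero => exact hX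
      | succ k ih => exact (hstep (c X n k) ih k).1
    have hcl : x ∈ closure (X.1 : Set E) := by
      rw [Metric.mem_closure_iff]
      intro ε hε
      obtain ⟨k, hk⟩ := exists_pow_lt_of_lt_one hε (by norm_num : (1 / 2 : ℝ) < 1)
      obtain ⟨y, hy, hyk⟩ := hcA (k + 1)
      exact ⟨y, hy, lt_of_le_of_lt ((hstep (c X n k) (hcA k) k).2.2 x (hx (k + 1)) y hyk) hk⟩
    rwa [X.2.closure_eq] at hcl
  let g : ℕ → SB 𝕜 E → E := fun n X =>
    if h : X ∈ EPlus (𝕜 := 𝕜) (F.W n) then (hex n X h).choose else 0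
  have hg1 : ∀ n X (h : X ∈ EPlus (𝕜 := 𝕜) (F.W n)), g n X ∈ X.1 ∧ ∀ k, g n X ∈ F.W (c X n k) := by
    intro n X h
    simp only [g, dif_pos h]
    exact (hex n X h).choose_spec
  refine ⟨g, ?_, ?_, ?_⟩
  · intro n
    rw [continuous_iff_continuousAt]
    intro X
    by_cases hX : X ∈ EPlus (𝕜 := 𝕜) (F.W n)
    · rw [ContinuousAt, Metric.tendsto_nhds]
      intro ε hε
      obtain ⟨k, hk⟩ := exists_pow_lt_of_lt_one hε (by norm_num : (1 / 2 : ℝ) < 1)
      filter_upwards [(F.clopen n).isOpen.mem_nhds hX, hclc n (k + 1) X] with Y hY hYc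
      have h1 := (hg1 n Y hY).2 (k + 1)
      rw [hYc] at h1
      have h2 := (hg1 n X hX).2 (k + 1)
      have h3 : F.P (c X n k) k (c X n (k + 1)) := by
        have h4 : X ∈ EPlus (𝕜 := 𝕜) (F.W (c X n k)) :=
          ⟨g n X, (hg1 n X hX).1, (hg1 n X hX).2 k⟩
        have h2 : F.w X (c X n k, k) ≠ 0 := (F.w_ne_zero X _ k).2 h4
        have h4 : F.w X (c X n k, k) = (F.w X (c X n k, k) - 1) + 1 := by omega
        obtain ⟨⟨h5, h6⟩, -⟩ := (F.w_spec X _ k _).1 h4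
        exact h5
      exact lt_of_le_of_lt (h3.2 _ h1 _ h2) hk
    · have h1 : ∀ᶠ Y in 𝓝 X, g n Y = 0 := by
        filter_upwards [(F.clopen (𝕜 := 𝕜) n).compl.isOpen.mem_nhds hX] with Y hY
        exact dif_neg hY
      have h2 : g n X = 0 := dif_neg hX
      rw [ContinuousAt, h2]
      exact tendsto_nhds_of_eventually_eq h1
  · intro n X
    by_cases hX : X ∈ EPlus (𝕜 := 𝕜) (F.W n)
    · exact (hg1 n X hX).1
    · have h2 : g n X = 0 := dif_neg hX
      rw [h2]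
      exact X.1.zero_mem
  · intro X x O hx hxO hO
    obtain ⟨n, hn, hnO⟩ := F.base O x hO hxO
    have hX : X ∈ EPlus (𝕜 := 𝕜) (F.W n) := ⟨x, hx, hn⟩
    exact ⟨n, hnO ((hg1 n X hX).2 0)⟩

end Family

end Pool.Agent.Q307.SBC
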